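import Mathlib

/-!
Project KA3 (helper5): MP_0d5e35_al. The exponent of a finite-dimensional Hopf algebra and the
Drinfeld element of its double.  Statements of the pieces; paper proofs in the docstrings.
-/

set_option autoImplicit false

namespace Pool.Agent.W2helper5.KA3

open TensorProduct

section defs

variable {K H : Type} [Field K] [Ring H] [HopfAlgebra K H]

/-- The convolution product of linear forms: `(f * g)(x) = f(x₁) g(x₂)`. -/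
noncomputable def cv (f g : H →ₗ[K] K) : H →ₗ[K] K :=
  LinearMap.mul' K K ∘ₗ TensorProduct.map f g ∘ₗ Coalgebra.comul (R := K) (A := H)

/-- The linear form `x ↦ f (p * x * q)`. -/
noncomputable def tr (f : H →ₗ[K] K) (p q : H) : H →ₗ[K] K :=
  f ∘ₗ LinearMap.mulRight K q ∘ₗ LinearMap.mulLeft K p

/-- `∑ t, a t ⊗ b t ⊗ c t` is `h₁ ⊗ h₂ ⊗ h₃`. -/
def IsSweedler (K : Type) {H : Type} [Field K] [Ring H] [HopfAlgebra K H] (h : H) {n : ℕ}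
    (a b c : Fin n → H) : Prop :=
  ∑ t, a t ⊗ₜ[K] (b t ⊗ₜ[K] c t) =
    LinearMap.lTensor H (Coalgebra.comul (R := K) (A := H)) (Coalgebra.comul (R := K) h)

/-- `D` is the Drinfeld double of `H`, with `i : H → D` and `j : H^* → D`. -/
structure IsDrinfeldDouble (Sinv : H →ₗ[K] H) (D : Type) [Ring D] [Algebra K D] (i : H →ₐ[K] D)
    (j : (H →ₗ[K] K) →ₗ[K] D) : Prop where
  j_one : j (Coalgebra.counit (R := K) (A := H)) = 1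
  j_mul : ∀ f g, j (cv f g) = j f * j g
  rel : ∀ (h : H) (f : H →ₗ[K] K) (n : ℕ) (a b c : Fin n → H), IsSweedler K h a b c →
    i h * j f = ∑ t, j (tr f (Sinv (c t)) (a t)) * i (b t)
  bij : Function.Bijective (TensorProduct.lift
    ((LinearMap.mul K D).compl₁₂ j i.toLinearMap) : (H →ₗ[K] K) ⊗[K] H → D)

/-- `Θ φ = ∑ t, j (e^t ∘ S⁻¹) i (φ e_t)`. -/
noncomputable def Θ (Sinv : H →ₗ[K] H) {D : Type} [Ring D] [Algebra K D] (i : H →ₐ[K] D)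
    (j : (H →ₗ[K] K) →ₗ[K] D) {n : ℕ} (e : Module.Basis (Fin n) K H) (φ : H →ₗ[K] H) : D :=
  ∑ t, j (e.coord t ∘ₗ Sinv) * i (φ (e t))

end defs

/-- The recursion in the frozen statement. -/
noncomputable def stp (K H : Type) [Field K] [Ring H] [HopfAlgebra K H] (Sinv T : H →ₗ[K] H) :
    H →ₗ[K] H :=
  LinearMap.mul' K H ∘ₗ TensorProduct.map LinearMap.id (Sinv ∘ₗ Sinv ∘ₗ T) ∘ₗ
    Coalgebra.comul (R := K) (A := H)

/-- The unit of the convolution algebra. -/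
noncomputable def cun (K H : Type) [Field K] [Ring H] [HopfAlgebra K H] : H →ₗ[K] H :=
  Algebra.linearMap K H ∘ₗ Coalgebra.counit (R := K) (A := H)

/-- PIECE ACO (~80 lines). `Δ (S x) = S x₂ ⊗ S x₁` (both sides are convolution inverse to `Δ` in
`Hom(H, H ⊗ H)`), so `Δ (S⁻¹ x) = S⁻¹ x₂ ⊗ S⁻¹ x₁`, so
`(f ∘ S⁻¹) * (g ∘ S⁻¹) = (g * f) ∘ S⁻¹`. Also `ε ∘ S⁻¹ = ε` (`HopfAlgebra.counit_antipode`). -/
def P_ACO : Prop := ∀ (K H : Type) [Field K] [Ring H] [HopfAlgebra K H] (Sinv : H →ₗ[K] H),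
  Sinv ∘ₗ HopfAlgebra.antipode (R := K) (A := H) = LinearMap.id →
  HopfAlgebra.antipode (R := K) (A := H) ∘ₗ Sinv = LinearMap.id →
  (∀ f g : H →ₗ[K] K, cv (f ∘ₗ Sinv) (g ∘ₗ Sinv) = cv g f ∘ₗ Sinv) ∧
    Coalgebra.counit (R := K) (A := H) ∘ₗ Sinv = Coalgebra.counit (R := K) (A := H)

/-- PIECE COM (~100 lines). `i(k) u = u i(S⁻² k)`, `u = Θ id`. Choose `a b c` with `IsSweedler k`
(every element of `H ⊗ (H ⊗ H)` is a finite sum). With `p = S⁻¹(a t)`, `q = S⁻²(c t)`: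
`tr (e^m ∘ S⁻¹) (S⁻¹(c t)) (a t) = x ↦ e^m (p (S⁻¹ x) q) = ∑_l e^m(p e_l q) (e^l ∘ S⁻¹)(x)`
(`S⁻¹` is antimultiplicative by `HopfAlgebra.antipode_mul_antidistrib`). So
`i(k) u = ∑_t ∑_l j(e^l ∘ S⁻¹) i(b_t p e_l q)`, and `∑_t b_t S⁻¹(a_t) ⊗ c_t = 1 ⊗ k`
(coassociativity and `k₂ S⁻¹(k₁) = ε(k)`, which is `S⁻¹` of `k₁ S(k₂) = ε(k)`). -/
def P_COM : Prop := ∀ (K H D : Type) [Field K] [Ring H] [HopfAlgebra K H] [Ring D] [Algebra K D]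
  (Sinv : H →ₗ[K] H), Sinv ∘ₗ HopfAlgebra.antipode (R := K) (A := H) = LinearMap.id →
  HopfAlgebra.antipode (R := K) (A := H) ∘ₗ Sinv = LinearMap.id →
  ∀ (i : H →ₐ[K] D) (j : (H →ₗ[K] K) →ₗ[K] D), IsDrinfeldDouble Sinv D i j →
  ∀ (n : ℕ) (e : Module.Basis (Fin n) K H) (k : H),
    i k * Θ Sinv i j e LinearMap.id = Θ Sinv i j e LinearMap.id * i (Sinv (Sinv k))

/-- PIECE POW (~100 lines). `Θ φ * u = Θ (stp φ)`:
`Θ φ u = ∑_t j(e^t∘S⁻¹) i(φ e_t) u = ∑_t j(e^t∘S⁻¹) u i(S⁻²(φ e_t))` (COM)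
`= ∑_{t,l} j((e^l * e^t)∘S⁻¹) i(e_l S⁻²(φ e_t))` (ACO), and `∑_{t,l} (e^l * e^t) ⊗ e_l ψ(e_t)` is
`∑_m e^m ⊗ (e_m)₁ ψ((e_m)₂)`. `Θ (cun) = j(ε ∘ S⁻¹) = 1` (`∑_t ε(e_t) e^t = ε`). Induction on `m`
gives `Θ (stp^m cun) = u^m`. -/
def P_POW : Prop := P_ACO → P_COM → ∀ (K H D : Type) [Field K] [Ring H] [HopfAlgebra K H] [Ring D]
  [Algebra K D] (Sinv : H →ₗ[K] H),
  Sinv ∘ₗ HopfAlgebra.antipode (R := K) (A := H) = LinearMap.id →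
  HopfAlgebra.antipode (R := K) (A := H) ∘ₗ Sinv = LinearMap.id →
  ∀ (i : H →ₐ[K] D) (j : (H →ₗ[K] K) →ₗ[K] D), IsDrinfeldDouble Sinv D i j →
  ∀ (n : ℕ) (e : Module.Basis (Fin n) K H) (m : ℕ),
    Θ Sinv i j e ((stp K H Sinv)^[m] (cun K H)) = (Θ Sinv i j e LinearMap.id) ^ m

/-- PIECE INJ (~50 lines). `Θ` is injective: `Θ φ` is the image of
`∑_t (e^t ∘ S⁻¹) ⊗ φ(e_t)` under the bijection `bij`; the forms `e^t ∘ S⁻¹` are linearly independent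
(compose with `S`), so `∑_t (e^t ∘ S⁻¹) ⊗ φ(e_t)` determines `φ`. -/
def P_INJ : Prop := ∀ (K H D : Type) [Field K] [Ring H] [HopfAlgebra K H] [Ring D] [Algebra K D]
  (Sinv : H →ₗ[K] H), Sinv ∘ₗ HopfAlgebra.antipode (R := K) (A := H) = LinearMap.id →
  HopfAlgebra.antipode (R := K) (A := H) ∘ₗ Sinv = LinearMap.id →
  ∀ (i : H →ₐ[K] D) (j : (H →ₗ[K] K) →ₗ[K] D), IsDrinfeldDouble Sinv D i j →
  ∀ (n : ℕ) (e : Module.Basis (Fin n) K H) (φ ψ : H →ₗ[K] H),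
    Θ Sinv i j e φ = Θ Sinv i j e ψ → φ = ψ

end Pool.Agent.W2helper5.KA3
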