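import Pool.Agent.W2helper5.KA.Stm

/-!
Project KA (helper5): assembly.
-/

set_option autoImplicit false

namespace Pool.Agent.W2helper5.KA

open TensorProduct

section one

variable {k F Γ : Type} [Field k] [Group F] [Group Γ] [Fintype F] [Fintype Γ]

theorem at_card (hG : P_GRP) (hO : P_ORB) (hL : P_LOOP) (hg : P_PWG) (hf : P_PWF) (hp : P_PER)
    (ha : P_ARI) (D : Dat k F Γ) (p : Γ × F) :
    T D p (Fintype.card F * Fintype.card Γ) = 1 ∧ X D p (Fintype.card F * Fintype.card Γ) = 1 ∧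
      P D p (Fintype.card F * Fintype.card Γ) = p ∧
      c D p (Fintype.card F * Fintype.card Γ) = 1 := by
  obtain ⟨N, hN0, hNd, hT, hX, hP, hpp⟩ := hL hG hO k F Γ D p
  have h1 := hg k F Γ D p N hT hX
  have h2 := hf k F Γ D p N hT hX
  have h3 := ha k (c D p N) (Fintype.card F) (Fintype.card Γ) N Fintype.card_pos
    Fintype.card_pos hN0 hNd h2 h1 hpp
  obtain ⟨e1, e2, e3, e4⟩ := hp k F Γ D p N hT hX hP (Fintype.card F * Fintype.card Γ / N)
  rw [Nat.div_mul_cancel hNd] at e1 e2 e3 e4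
  exact ⟨e1, e2, e3, by rw [e4, h3]⟩

omit [Fintype F] [Fintype Γ] in
theorem r_inj (D : Dat k F Γ) (x : F) : Function.Injective fun t => D.r t x := by
  intro s t h
  have h' : D.r (D.r s x) x⁻¹ = D.r (D.r t x) x⁻¹ := by rw [show D.r s x = D.r t x from h]
  rwa [← D.r_mul, ← D.r_mul, mul_inv_cancel, D.r_one, D.r_one] at h'

end one

section two

variable {k F Γ H : Type} [Field k] [Group F] [Group Γ] [Fintype F] [Fintype Γ]
  [DecidableEq F] [DecidableEq Γ] [Ring H] [HopfAlgebra k H]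

theorem conv_card (hG : P_GRP) (hO : P_ORB) (hL : P_LOOP) (hg : P_PWG) (hf : P_PWF) (hp : P_PER)
    (ha : P_ARI) (hC : P_CONV) (D : Dat k F Γ) (b : Module.Basis (Γ × F) k H)
    (hH : IsExt D H b) :
    ((conv k H)^[Fintype.card F * Fintype.card Γ]) (cun k H) = cun k H := by
  apply b.ext
  rintro ⟨s, x⟩
  rw [hC k F Γ H D b hH]
  have e : ∀ t : Γ, (if T D (t, x) (Fintype.card F * Fintype.card Γ) = s then
      c D (t, x) (Fintype.card F * Fintype.card Γ) •
        b (D.r (P D (t, x) (Fintype.card F * Fintype.card Γ)).1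
          (P D (t, x) (Fintype.card F * Fintype.card Γ)).2,
          X D (t, x) (Fintype.card F * Fintype.card Γ)) else 0) =
      if s = 1 then b (D.r t x, 1) else 0 := by
    intro t
    obtain ⟨e1, e2, e3, e4⟩ := at_card hG hO hL hg hf hp ha D (t, x)
    rw [e1, e2, e3, e4, one_smul]
    simp only [eq_comm]
  rw [Finset.sum_congr rfl fun t _ => e t]
  unfold cun
  rw [LinearMap.comp_apply, hH.counit]
  by_cases hs : s = 1
  · rw [if_pos hs]
    simp only [if_pos hs]
    rw [Algebra.linearMap_apply, map_one, hH.one]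
    exact Fintype.sum_bijective (fun t => D.r t x)
      ((Fintype.bijective_iff_injective_and_card _).mpr ⟨r_inj D x, rfl⟩) _ _ fun t => rfl
  · rw [if_neg hs]
    simp only [if_neg hs]
    rw [Finset.sum_const_zero, map_zero]

theorem main (hG : P_GRP) (hO : P_ORB) (hL : P_LOOP) (hg : P_PWG) (hf : P_PWF) (hp : P_PER)
    (ha : P_ARI) (hC : P_CONV) (hS : P_SSQ) (D : Dat k F Γ) (b : Module.Basis (Γ × F) k H)
    (hH : IsExt D H b) (Sinv : H →ₗ[k] H)
    (h1 : Sinv ∘ₗ HopfAlgebra.antipode (R := k) (A := H) = LinearMap.id)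
    (_h2 : HopfAlgebra.antipode (R := k) (A := H) ∘ₗ Sinv = LinearMap.id) :
    ∃ n : ℕ, 0 < n ∧
      (fun T : H →ₗ[k] H => LinearMap.mul' k H ∘ₗ
          TensorProduct.map LinearMap.id (Sinv ∘ₗ Sinv ∘ₗ T) ∘ₗ
          Coalgebra.comul (R := k) (A := H))^[n]
        (Algebra.linearMap k H ∘ₗ Coalgebra.counit (R := k) (A := H))
        = Algebra.linearMap k H ∘ₗ Coalgebra.counit (R := k) (A := H) ∧
      (∀ m : ℕ, 0 < m →
        (fun T : H →ₗ[k] H => LinearMap.mul' k H ∘ₗ
            TensorProduct.map LinearMap.id (Sinv ∘ₗ Sinv ∘ₗ T) ∘ₗ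
            Coalgebra.comul (R := k) (A := H))^[m]
          (Algebra.linearMap k H ∘ₗ Coalgebra.counit (R := k) (A := H))
          = Algebra.linearMap k H ∘ₗ Coalgebra.counit (R := k) (A := H) →
        n ≤ m) ∧
      n ∣ Module.finrank k H := by
  have hSS := hS k F Γ H D b hH
  have hSi : Sinv = HopfAlgebra.antipode (R := k) (A := H) := by
    calc Sinv = Sinv ∘ₗ (HopfAlgebra.antipode k (A := H) ∘ₗ HopfAlgebra.antipode k (A := H)) := by
          rw [hSS, LinearMap.comp_id]
      _ = (Sinv ∘ₗ HopfAlgebra.antipode k (A := H)) ∘ₗ HopfAlgebra.antipode k (A := H) := rfl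
      _ = _ := by rw [h1, LinearMap.id_comp]
  have hop : (fun T : H →ₗ[k] H => LinearMap.mul' k H ∘ₗ
          TensorProduct.map LinearMap.id (Sinv ∘ₗ Sinv ∘ₗ T) ∘ₗ
          Coalgebra.comul (R := k) (A := H)) = conv k H := by
    funext T
    have : Sinv ∘ₗ Sinv ∘ₗ T = T := by
      calc Sinv ∘ₗ Sinv ∘ₗ T = (Sinv ∘ₗ Sinv) ∘ₗ T := rfl
        _ = T := by rw [hSi, hSS, LinearMap.id_comp]
    rw [this]
    rfl
  rw [hop]
  have hper : Function.IsPeriodicPt (conv k H) (Fintype.card F * Fintype.card Γ) (cun k H) :=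
    conv_card hG hO hL hg hf hp ha hC D b hH
  have hpos : 0 < Fintype.card F * Fintype.card Γ :=
    Nat.mul_pos Fintype.card_pos Fintype.card_pos
  refine ⟨Function.minimalPeriod (conv k H) (cun k H), hper.minimalPeriod_pos hpos,
    Function.isPeriodicPt_minimalPeriod (conv k H) (cun k H), ?_, ?_⟩
  · intro m hm h
    exact Function.IsPeriodicPt.minimalPeriod_le hm h
  · have : Module.finrank k H = Fintype.card F * Fintype.card Γ := by
      rw [Module.finrank_eq_card_basis b, Fintype.card_prod, Nat.mul_comm]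
    rw [this]
    exact hper.minimalPeriod_dvd

end two

end Pool.Agent.W2helper5.KA
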