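import Pool.Agent.W2helper5.KA.Stm2

/-!
Project KA2 (helper5): assembly.
-/

set_option autoImplicit false

namespace Pool.Agent.W2helper5.KA2

theorem main2 (hC : P_CYC) (hN : P_CON) (hI : P_IDX) (hU : P_NUM) (hD : P_DBL)
    {K G : Type} [Field K] [Group G] [Fintype G] [DecidableEq G]
    (ω : G → G → G → Kˣ) (hω : IsCoc ω) (A B : Subgroup G)
    (hAB : ∀ g : G, ∃ a ∈ A, ∃ b ∈ B, g = a * b) (hA : TrivialOn ω A) (hB : TrivialOn ω B)
    {E : Type} [Ring E] [Algebra K E] (b : Module.Basis (G × G) K E) (hE : IsDouble ω E b) :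
    (∀ g : G, orderOf g * orderOf (z ω g) ∣ Fintype.card G) ∧
      orderOf (∑ g, b (g, g)) ∣ Fintype.card G := by
  have h : ∀ g : G, orderOf g * orderOf (z ω g) ∣ Fintype.card G := by
    intro g
    have := hU hC hN hI G Kˣ ω hω A B hAB hA hB g
    rwa [Nat.card_eq_fintype_card] at this
  exact ⟨h, orderOf_dvd_of_pow_eq_one (hD K G ω hω E b hE h)⟩

end Pool.Agent.W2helper5.KA2
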