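import Pool.Agent.W2helper5.KA.Stm3

/-!
Project KA3 (helper5): assembly.
-/

set_option autoImplicit false

namespace Pool.Agent.W2helper5.KA3

open TensorProduct

theorem main3 (hA : P_ACO) (hC : P_COM) (hP : P_POW) (hI : P_INJ) {K H D : Type} [Field K] [Ring H]
    [HopfAlgebra K H] [Ring D] [Algebra K D] (Sinv : H →ₗ[K] H)
    (h1 : Sinv ∘ₗ HopfAlgebra.antipode (R := K) (A := H) = LinearMap.id)
    (h2 : HopfAlgebra.antipode (R := K) (A := H) ∘ₗ Sinv = LinearMap.id)
    (i : H →ₐ[K] D) (j : (H →ₗ[K] K) →ₗ[K] D) (hD : IsDrinfeldDouble Sinv D i j)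
    {d : ℕ} (e : Module.Basis (Fin d) K H) (hd : 0 < d)
    (hu : (Θ Sinv i j e LinearMap.id) ^ d = 1) :
    ∃ n : ℕ, 0 < n ∧
      (fun T : H →ₗ[K] H => LinearMap.mul' K H ∘ₗ
          TensorProduct.map LinearMap.id (Sinv ∘ₗ Sinv ∘ₗ T) ∘ₗ
          Coalgebra.comul (R := K) (A := H))^[n]
        (Algebra.linearMap K H ∘ₗ Coalgebra.counit (R := K) (A := H))
        = Algebra.linearMap K H ∘ₗ Coalgebra.counit (R := K) (A := H) ∧
      (∀ m : ℕ, 0 < m →
        (fun T : H →ₗ[K] H => LinearMap.mul' K H ∘ₗ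
            TensorProduct.map LinearMap.id (Sinv ∘ₗ Sinv ∘ₗ T) ∘ₗ
            Coalgebra.comul (R := K) (A := H))^[m]
          (Algebra.linearMap K H ∘ₗ Coalgebra.counit (R := K) (A := H))
          = Algebra.linearMap K H ∘ₗ Coalgebra.counit (R := K) (A := H) →
        n ≤ m) ∧
      n ∣ Module.finrank K H := by
  have hpw := hP hA hC K H D Sinv h1 h2 i j hD d e
  have hper : Function.IsPeriodicPt (stp K H Sinv) d (cun K H) := by
    apply hI K H D Sinv h1 h2 i j hD d e
    rw [hpw d, hu]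
    have := hpw 0
    rw [pow_zero] at this
    exact this.symm
  refine ⟨Function.minimalPeriod (stp K H Sinv) (cun K H), hper.minimalPeriod_pos hd,
    Function.isPeriodicPt_minimalPeriod (stp K H Sinv) (cun K H), ?_, ?_⟩
  · intro m hm h
    exact Function.IsPeriodicPt.minimalPeriod_le hm h
  · rw [Module.finrank_eq_card_basis e, Fintype.card_fin]
    exact hper.minimalPeriod_dvd

end Pool.Agent.W2helper5.KA3
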