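import Mathlib

/-!
Project KA (helper5): MP_0d5e35_al. Kashina's conjecture (the exponent divides the dimension) for
all abelian extensions H = k^Γ #_{σ,τ} kF.  Statements of the pieces; paper proofs in the
docstrings.
-/

set_option autoImplicit false

namespace Pool.Agent.W2helper5.KA

open TensorProduct

/-- A matched pair of groups `(F, Γ)` with a compatible pair of normalized cocycles: `l s x = s ▷ x`,
`r s x = s ◁ x`, `σ s x y = σ_s(x, y)`, `τ x s t = τ_x(s, t)`. -/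
structure Dat (k F Γ : Type) [Field k] [Group F] [Group Γ] where
  l : Γ → F → F
  r : Γ → F → Γ
  σ : Γ → F → F → k
  τ : F → Γ → Γ → k
  l_one : ∀ x, l 1 x = x
  l_mul : ∀ s t x, l (s * t) x = l s (l t x)
  r_one : ∀ s, r s 1 = s
  r_mul : ∀ s x y, r s (x * y) = r (r s x) y
  l_xy : ∀ s x y, l s (x * y) = l s x * l (r s x) y
  r_st : ∀ s t x, r (s * t) x = r s (l t x) * r t x
  σ_ne : ∀ s x y, σ s x y ≠ 0
  τ_ne : ∀ x s t, τ x s t ≠ 0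
  σ_one₀ : ∀ x y, σ 1 x y = 1
  σ_one₁ : ∀ s y, σ s 1 y = 1
  σ_one₂ : ∀ s x, σ s x 1 = 1
  τ_one₀ : ∀ s t, τ 1 s t = 1
  τ_one₁ : ∀ x t, τ x 1 t = 1
  τ_one₂ : ∀ x s, τ x s 1 = 1
  coc₁ : ∀ s x y z, σ (r s x) y z * σ s x (y * z) = σ s x y * σ s (x * y) z
  coc₂ : ∀ x s t u, τ x (s * t) u * τ (l u x) s t = τ x s (t * u) * τ x t u
  coc₃ : ∀ s t x y, σ (s * t) x y * τ (x * y) s t =
    σ s (l t x) (l (r t x) y) * σ t x y * τ x s t * τ y (r s (l t x)) (r t x)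

/-- The Hopf algebra `H` is `k^Γ #_{σ,τ} kF`: it has a basis `b (s, x) = e_s # x` with the
multiplication and the comultiplication given by `D`. -/
structure IsExt {k F Γ : Type} [Field k] [Group F] [Group Γ] [Fintype F] [Fintype Γ]
    [DecidableEq F] [DecidableEq Γ] (D : Dat k F Γ) (H : Type) [Ring H] [HopfAlgebra k H]
    (b : Module.Basis (Γ × F) k H) : Prop where
  mul : ∀ s x t y, b (s, x) * b (t, y) = if D.r s x = t then D.σ s x y • b (s, x * y) else 0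
  one : (1 : H) = ∑ s, b (s, 1)
  comul : ∀ s x, Coalgebra.comul (R := k) (b (s, x)) =
    ∑ t, D.τ x (s * t⁻¹) t • (b (s * t⁻¹, D.l t x) ⊗ₜ[k] b (t, x))
  counit : ∀ s x, Coalgebra.counit (R := k) (b (s, x)) = if s = 1 then 1 else 0

section defs

variable {k F Γ : Type} [Field k] [Group F] [Group Γ] (D : Dat k F Γ)

/-- One step back: `(t₁, x₁) ↦ (t₀, x₀)` with `x₀ = t₁ ▷ x₁`, `t₀ ◁ x₀ = t₁`. -/
def U (p : Γ × F) : Γ × F := (D.r p.1 (D.l p.1 p.2)⁻¹, D.l p.1 p.2)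

/-- The sequence. -/
def P (p : Γ × F) (n : ℕ) : Γ × F := (U D)^[n] p

/-- Product of the first components, later ones on the left. -/
def T (p : Γ × F) : ℕ → Γ
  | 0 => 1
  | n + 1 => (P D p n).1 * T p n

/-- Product of the second components, later ones on the left. -/
def X (p : Γ × F) : ℕ → F
  | 0 => 1
  | n + 1 => (P D p n).2 * X p n

/-- The scalar. -/
def c (p : Γ × F) : ℕ → k
  | 0 => 1
  | n + 1 => D.τ p.2 (P D p n).1 (T D p n) * D.σ (P D p n).1 (P D p n).2 (X D p n) * c p n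

end defs

/-- Convolution with the identity on the left. -/
noncomputable def conv (k H : Type) [Field k] [Ring H] [HopfAlgebra k H] (f : H →ₗ[k] H) :
    H →ₗ[k] H :=
  LinearMap.mul' k H ∘ₗ TensorProduct.map LinearMap.id f ∘ₗ Coalgebra.comul (R := k) (A := H)

/-- The unit of the convolution algebra. -/
noncomputable def cun (k H : Type) [Field k] [Ring H] [HopfAlgebra k H] : H →ₗ[k] H :=
  Algebra.linearMap k H ∘ₗ Coalgebra.counit (R := k) (A := H)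

/-- PIECE CONV (~100 lines). Induction on `n`.  `n = 0`: `t ↦ t ◁ x` is a bijection of `Γ`
(inverse `t ↦ t ◁ x⁻¹`) and `1 = ∑ b (s, 1)`.  Step: `conv f (b (s,x)) = ∑_u τ_x(s u⁻¹, u)
b (s u⁻¹, u ▷ x) * f (b (u, x))`; insert the formula for `f`; the term `t` with `T n = u`:
`u ▷ x = T n ▷ x = (P n).2` (lemma by induction: `D.l (T D p n) p.2 = (P D p n).2`), the product
`b (s u⁻¹, (P n).2) * b (r (P n).1 (P n).2, X n)` is nonzero iff `s u⁻¹ = (P n).1` (`r · x` is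
injective), i.e. `s = T (n+1)`, and then it is `σ .. • b ((P n).1, X (n+1))`; and
`r (P (n+1)).1 (P (n+1)).2 = (P n).1`. -/
def P_CONV : Prop := ∀ (k F Γ H : Type) [Field k] [Group F] [Group Γ] [Fintype F] [Fintype Γ]
  [DecidableEq F] [DecidableEq Γ] [Ring H] [HopfAlgebra k H] (D : Dat k F Γ)
  (b : Module.Basis (Γ × F) k H), IsExt D H b → ∀ (n : ℕ) (s : Γ) (x : F),
  ((conv k H)^[n] (cun k H)) (b (s, x)) =
    ∑ t : Γ, if T D (t, x) n = s then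
      c D (t, x) n • b (D.r (P D (t, x) n).1 (P D (t, x) n).2, X D (t, x) n) else 0

/-- PIECE SSQ (~120 lines). Let `μ(s,x) = (τ_x(s⁻¹, s) σ_{s⁻¹}(s▷x, (s▷x)⁻¹))⁻¹` and
`S'(b (s,x)) = μ(s,x) • b ((s◁x)⁻¹, (s▷x)⁻¹)`.  Then `S' * id = η ε` in the convolution algebra:
`(S' * id)(b (s,x)) = ∑_t τ_x(s t⁻¹, t) S'(b (s t⁻¹, t▷x)) b (t, x)`, the term is zero unless
`s = 1` (`(t ◁ x) = (t ◁ (s▷x)) (s ◁ x)` iff `s = 1`), and for `s = 1` the scalar is 1 because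
`τ_x(t⁻¹, t) = τ_{t▷x}(t, t⁻¹)` (coc₂ with `t, t⁻¹, t`) and `σ_{t◁x}(x⁻¹, x) = σ_t(x, x⁻¹)` (coc₁ with
`x, x⁻¹, x`).  So `S'` is the antipode (left convolution inverse of `id`, and the antipode is the
inverse). `S'(S'(b (s,x))) = μ(s,x) μ((s◁x)⁻¹, (s▷x)⁻¹) b (s,x)` and the scalar is 1 by coc₃ with
`(s⁻¹, s, x, x⁻¹)` and the two identities above. -/
def P_SSQ : Prop := ∀ (k F Γ H : Type) [Field k] [Group F] [Group Γ] [Fintype F] [Fintype Γ]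
  [DecidableEq F] [DecidableEq Γ] [Ring H] [HopfAlgebra k H] (D : Dat k F Γ)
  (b : Module.Basis (Γ × F) k H), IsExt D H b →
  HopfAlgebra.antipode k (A := H) ∘ₗ HopfAlgebra.antipode k (A := H) = LinearMap.id

/-- PIECE GRP (~80 lines). The group `F × Γ` with `(x, s)(y, t) = (x (s▷y), (s◁y) t)`; unit `(1,1)`;
`s ▷ 1 = 1`, `1 ◁ x = 1` follow from `l_xy`, `r_st`; inverse of `(x, s)` is
`(s⁻¹ ▷ x⁻¹, s⁻¹ ◁ x⁻¹)` (or: finite monoid with the stated factorisation); `i x = (x, 1)`,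
`j s = (1, s)`. -/
def P_GRP : Prop := ∀ (k F Γ : Type) [Field k] [Group F] [Group Γ] [Fintype F] [Fintype Γ]
  (D : Dat k F Γ), ∃ (G : Type) (_ : Group G) (_ : Finite G) (i : F →* G) (j : Γ →* G),
  Function.Injective i ∧ Function.Injective j ∧ (∀ g, ∃ x s, g = i x * j s) ∧
  (∀ x s, i x = j s → x = 1 ∧ s = 1) ∧ (∀ s x, j s * i x = i (D.l s x) * j (D.r s x)) ∧
  Nat.card G = Fintype.card F * Fintype.card Γ

/-- PIECE ORB (~80 lines). Pure group theory. Suppose `p^a` divides the order of `g` (a ≥ 1; a = 0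
trivial); `h` = power of `g` of order `p^a`, `z = h^(p^(a-1))` of order `p`, contained in every
nontrivial subgroup of `⟨h⟩`.  If `z` fixes no point of `G/A` then `⟨h⟩` acts freely on `G/A`, so
`p^a` divides `|G/A| = |B|` (`|G| = |A||B|`).  Same for `G/B` and `|A|`.  Otherwise `z` is in a
conjugate of `A` and in a conjugate of `B`; since `G = A B`, `x A x⁻¹ ∩ y B y⁻¹` is conjugate to
`A ∩ B = 1`, contradiction. -/
def P_ORB : Prop := ∀ (G : Type) [Group G] [Finite G] (A B : Subgroup G),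
  (∀ g : G, ∃ a ∈ A, ∃ b ∈ B, g = a * b) → A ⊓ B = ⊥ → ∀ (g : G) (p a : ℕ), p.Prime →
  p ^ a ∣ orderOf g → p ^ a ∣ Nat.card A ∨ p ^ a ∣ Nat.card B

/-- PIECE LOOP (~120 lines). In the group `G` of GRP (write `F, Γ ⊆ G`): for `p = (t, x)` let
`γ = (t▷x)⁻¹ t = (t◁x) x⁻¹ ∈ G`, `γ_n` the same for `P n`.  `γ_{n+1} = x_{n+1} γ_n x_{n+1}⁻¹` for
`(t_n, x_n) = P n`, `x_{n+1} = t_n ▷ x_n`.  Let `Y_0 = 1`, `Y_{n+1} = (P (n+1)).2 * Y_n`.  Then `γ_n = Y_n γ Y_n⁻¹` and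
`T n = Y_n γ^n` in `G` (`t_n Y_n = x_{n+1} γ_n Y_n`), and `(P n).2 * X n = Y_n * x`.  Let
`N = orderOf γ` (divides `|G|`).  Then `T N = Y_N ∈ Γ ∩ F`, so both are 1; `(P N).2 = T N ▷ x = x`
(lemma `D.l (T D p n) p.2 = (P D p n).2`), `X N = 1`, `γ_N = γ` so `(P N).1 ◁ x = t ◁ x`,
`P N = (t, x)`.  The last clause is ORB for the images of `i` and `j`. -/
def P_LOOP : Prop := P_GRP → P_ORB → ∀ (k F Γ : Type) [Field k] [Group F] [Group Γ] [Fintype F]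
  [Fintype Γ] (D : Dat k F Γ) (p : Γ × F), ∃ N : ℕ, 0 < N ∧
  N ∣ Fintype.card F * Fintype.card Γ ∧ T D p N = 1 ∧ X D p N = 1 ∧ P D p N = p ∧
  ∀ q a : ℕ, q.Prime → q ^ a ∣ N → q ^ a ∣ Fintype.card F ∨ q ^ a ∣ Fintype.card Γ

/-- PIECE PWG (~100 lines). Average over `Γ`: `β_x(u) = ∏_s τ_x(s, u)`, `A(x, y) = ∏_s σ_s(x, y)`.
coc₂ gives `τ_x(s,u)^|Γ| = β_x(u) β_{u▷x}(s) / β_x(s u)`; coc₃ gives
`σ_t(x,y)^|Γ| = A(x,y) / A(t▷x, (t◁x)▷y) * β_{xy}(t) / (β_x(t) β_y(t◁x))`; coc₁ gives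
`A(y,z) A(x,yz) = A(x,y) A(xy,z)`.  With `p = (t,x)`, `(t_n, x_n) = P n`, `Y_0 = 1`,
`Y_{n+1} = x_{n+1} Y_n`: `T n ▷ x = x_n`, `x_n X_n = Y_n x`, `(t_n ◁ x_n) ▷ X_n = Y_n`,
`t_{n+1} ◁ x_{n+1} = t_n`; so by induction
`c n ^ |Γ| = β_x(1)/β_x(T n) * β_{X n}(t_n ◁ x_n)/β_1(t ◁ x) * A(x,1)/A(x_n, X_n) * A(Y_n, x)/A(1, x)`
(use `A(x_{n+1}, Y_n) = A(x_{n+1}, X_{n+1}) A(Y_n, x)/A(Y_{n+1}, x)`).  For `T N = X N = 1` we have
`x_N = x`, `Y_N = 1` and everything cancels (`β_1 = 1`, `A(·,1) = A(1,·) = 1`). -/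
def P_PWG : Prop := ∀ (k F Γ : Type) [Field k] [Group F] [Group Γ] [Fintype F] [Fintype Γ]
  (D : Dat k F Γ) (p : Γ × F) (N : ℕ), T D p N = 1 → X D p N = 1 →
  c D p N ^ Fintype.card Γ = 1

/-- PIECE PWF (~100 lines). Average over `F`: `a_s(x) = ∏_y σ_s(x, y)`, `B(s, t) = ∏_y τ_y(s, t)`.
coc₁: `σ_s(x,y)^|F| = a_s(x) a_{s◁x}(y) / a_s(xy)`; coc₃ (product over `y`):
`τ_x(s,t)^|F| = a_{st}(x) B(s,t) / (a_s(t▷x) a_t(x) B(s◁(t▷x), t◁x))`; coc₂: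
`B(st,u) B(s,t) = B(s,tu) B(t,u)`.  With `(t_n, x_n) = P n`, `S_0 = 1`, `S_{n+1} = (t_n ◁ x_n) S_n`
(so `S_n = T_n ◁ x` and `S_n t'= T_n ...`: let `t' = t ◁ x`, then `T_n t' = (t_n ◁ x_n) S_n`),
the step of `c^|F|` is
`a_{T(n+1)}(x)/a_{T n}(x) * a_{t_n◁x_n}(X n)/a_{t_n}(X (n+1)) * B(t_n, T_n)/B(t_n◁x_n, S_n)` and
`B(t_n, T_n) = B(T_n, t') B(t_n, S_{n+1}) / B(T_{n+1}, t')` where `S_{n+1} = T_n t'`,
`t_{n+1} ◁ x_{n+1} = t_n`: everything telescopes, and for `T N = X N = 1` (`S_N = T_N ◁ x = 1`)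
all terms are 1. -/
def P_PWF : Prop := ∀ (k F Γ : Type) [Field k] [Group F] [Group Γ] [Fintype F] [Fintype Γ]
  (D : Dat k F Γ) (p : Γ × F) (N : ℕ), T D p N = 1 → X D p N = 1 →
  c D p N ^ Fintype.card F = 1

/-- PIECE PER (~60 lines). `P (m+N) = P m`, `T (m+N) = T m`, `X (m+N) = X m`,
`c (m+N) = c m * c N` by induction on `m`; then induction on `q`. -/
def P_PER : Prop := ∀ (k F Γ : Type) [Field k] [Group F] [Group Γ]
  (D : Dat k F Γ) (p : Γ × F) (N : ℕ), T D p N = 1 → X D p N = 1 → P D p N = p → ∀ q : ℕ,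
  T D p (q * N) = 1 ∧ X D p (q * N) = 1 ∧ P D p (q * N) = p ∧ c D p (q * N) = c D p N ^ q

/-- PIECE ARI (~60 lines). The order of `z` divides `f` and `g`; for every prime the exponent in
`N * ord z` is at most `max + min` of those of `f, g`; so `N * ord z ∣ f * g`. -/
def P_ARI : Prop := ∀ (k : Type) [Field k] (z : k) (f g N : ℕ), 0 < f → 0 < g → 0 < N →
  N ∣ f * g → z ^ f = 1 → z ^ g = 1 → (∀ q a : ℕ, q.Prime → q ^ a ∣ N → q ^ a ∣ f ∨ q ^ a ∣ g) →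
  z ^ (f * g / N) = 1

end Pool.Agent.W2helper5.KA
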