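import Mathlib

/-!
Project KA2 (helper5): MP_0d5e35_al. Kashina's conjecture for group-theoretical Hopf algebras: the
order of the Drinfeld element of the twisted double `D^ω(G)` divides `|G|` if `G = A B` and `ω` is
trivial on `A` and on `B`.  Statements of the pieces; paper proofs in the docstrings.
-/

set_option autoImplicit false

namespace Pool.Agent.W2helper5.KA2

/-- `ω` is a normalized 3-cocycle of `G` with values in `M`. -/
structure IsCoc {G M : Type} [Group G] [CommGroup M] (ω : G → G → G → M) : Prop where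
  coc : ∀ a b c d, ω b c d * ω a (b * c) d * ω a b c = ω (a * b) c d * ω a b (c * d)
  one₀ : ∀ b c, ω 1 b c = 1
  one₁ : ∀ a c, ω a 1 c = 1
  one₂ : ∀ a b, ω a b 1 = 1

/-- The restriction of `ω` to the subgroup `A` is a coboundary. -/
def TrivialOn {G M : Type} [Group G] [CommGroup M] (ω : G → G → G → M) (A : Subgroup G) : Prop :=
  ∃ α : G → G → M, ∀ a ∈ A, ∀ b ∈ A, ∀ c ∈ A,
    ω a b c * (α (a * b) c * α a b) = α b c * α a (b * c)

/-- The invariant of `ω` on the cyclic group generated by `g`. -/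
noncomputable def z {G M : Type} [Group G] [CommGroup M] (ω : G → G → G → M) (g : G) : M :=
  ∏ i ∈ Finset.range (orderOf g), ω g (g ^ i) g

/-- PIECE CYC (~100 lines). Let `E i j = ∏_{t<i} ω g (g^t) (g^j)`. By induction on `i` (the cocycle
identity with `g, g^i, g^j, g^l`): `ω (g^i) (g^j) (g^l) * (E j l * E i (j+l)) = E (i+j) l * E i j`.
With `N = orderOf g`: `E (N+i) j = E N j * E i j` (`Finset.prod_range_add`, periodicity). `i = N`
gives `E N (j+l) = E N j * E N l`, so `E N j = z^j` (`z = E N 1`), and `E N N = E N 0 = 1`: first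
clause. `z (g^e) = ∏_{t<N/e} ω (g^e) (g^(e t)) (g^e)` and the formula telescopes to `E N e = z^e`
(`E e N = E e 0 = 1`): second clause. -/
def P_CYC : Prop := ∀ (G M : Type) [Group G] [Finite G] [CommGroup M] (ω : G → G → G → M),
  IsCoc ω → ∀ g : G, z ω g ^ orderOf g = 1 ∧ ∀ e : ℕ, e ∣ orderOf g → z ω (g ^ e) = z ω g ^ e

/-- PIECE CON (~100 lines). First: if `g ∈ A` and `ω` is a coboundary on `A`, then `z ω g = 1`:
`ω g (g^i) g = α (g^i) g * α g (g^(i+1)) / (α (g^(i+1)) g * α g (g^i))`, the product over `i < N`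
telescopes. Second: `z (h g h⁻¹) = z g`. With `x' = h x h⁻¹`, let
`γ x y = ω h x y * ω x' y' h / ω x' h y`. Then `ω x' y' t' * (γ .. ) = ω x y t * (γ ..)`, i.e. `ω'/ω`
is the coboundary of `γ` (or of `γ⁻¹`): combine the cocycle identities for `(h,x,y,t)`,
`(x',h,y,t)`, `(x',y',h,t)`, `(x',y',t',h)` (note `x' * h = h * x`); and the product over `i < N` of
the coboundary at `(g, g^i, g)` telescopes as in the first part. -/
def P_CON : Prop := ∀ (G M : Type) [Group G] [Finite G] [CommGroup M] (ω : G → G → G → M),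
  IsCoc ω → (∀ (A : Subgroup G) (g : G), TrivialOn ω A → g ∈ A → z ω g = 1) ∧
    ∀ g h : G, z ω (h * g * h⁻¹) = z ω g

/-- PIECE IDX (~120 lines). Pure group theory. Let `cA` be maximal with: `g^(p^(a-cA))` (of order
`p^cA`) is in a conjugate of `A`; `cB` likewise. All stabilisers of `⟨g⟩` on `G/A` have order at most
`p^cA`, so all orbits have length divisible by `p^(a-cA)`, so `p^(a-cA) ∣ [G:A]` (compare
`Pool.Agent.W2helper15.KA.Orb`, `dvd_index`); likewise `p^(a-cB) ∣ [G:B]`. With `m = min cA cB`,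
`g^(p^(a-m))` is in `u A u⁻¹` and in `v B v⁻¹`, and since `G = A B` one can take `u = v`, so
`p^m ∣ |A ∩ B|`. `|G| = [G:A] [G:B] |A ∩ B|`, so `p^(2a - max cA cB) ∣ |G|`. Take `c = max`. -/
def P_IDX : Prop := ∀ (G : Type) [Group G] [Finite G] (A B : Subgroup G),
  (∀ g : G, ∃ a ∈ A, ∃ b ∈ B, g = a * b) → ∀ (g : G) (p a : ℕ), p.Prime → orderOf g = p ^ a →
  ∃ c ≤ a, p ^ (2 * a - c) ∣ Nat.card G ∧
    ((∃ h, h⁻¹ * g ^ p ^ (a - c) * h ∈ A) ∨ ∃ h, h⁻¹ * g ^ p ^ (a - c) * h ∈ B)

/-- PIECE NUM (~100 lines). It follows from CYC, CON, IDX. For every prime `p` compare valuations: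
let `p^a` be the exact power in `orderOf g`, `e = orderOf g / p^a`, `g₁ = g^e` of order `p^a`; by IDX
for `g₁`: `z g₁ ^ (p^(a-c)) = z (g₁^(p^(a-c))) = 1` (CYC, CON), so `z g ^ (e p^(a-c)) = 1`
(`z g₁ = z g ^ e`), so the `p`-part of `orderOf (z g)` divides `p^(a-c)` (e is prime to p), and
`p^a p^(a-c) ∣ |G|`. -/
def P_NUM : Prop := P_CYC → P_CON → P_IDX → ∀ (G M : Type) [Group G] [Finite G] [CommGroup M]
  (ω : G → G → G → M), IsCoc ω → ∀ A B : Subgroup G, (∀ g : G, ∃ a ∈ A, ∃ b ∈ B, g = a * b) →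
  TrivialOn ω A → TrivialOn ω B → ∀ g : G, orderOf g * orderOf (z ω g) ∣ Nat.card G

/-- The factor in the multiplication of the twisted double. -/
def θ {G M : Type} [Group G] [CommGroup M] (ω : G → G → G → M) (g x y : G) : M :=
  ω g x y * ω x y ((x * y)⁻¹ * g * (x * y)) / ω x (x⁻¹ * g * x) y

/-- The algebra `E` is the twisted double `D^ω(G)`, with the basis `b (g, x) = e_g x`. -/
structure IsDouble {K G : Type} [Field K] [Group G] [Fintype G] [DecidableEq G]
    (ω : G → G → G → Kˣ) (E : Type) [Ring E] [Algebra K E] (b : Module.Basis (G × G) K E) :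
    Prop where
  mul : ∀ g x h y, b (g, x) * b (h, y) =
    if x⁻¹ * g * x = h then ((θ ω g x y : Kˣ) : K) • b (g, x * y) else 0
  one : (1 : E) = ∑ g, b (g, 1)

/-- PIECE DBL (~70 lines). By induction `(∑_g b (g,g))^n = ∑_g (∏_{i<n} ω g (g^i) g) • b (g, g^n)`
(`θ ω g (g^n) g = ω g (g^n) g`; `ω g 1 g = 1`; `θ ω g 1 g = 1`). For `n = |G|`: `g^n = 1`, the
product is `z^(|G| / orderOf g) = 1` (periodicity). -/
def P_DBL : Prop := ∀ (K G : Type) [Field K] [Group G] [Fintype G] [DecidableEq G]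
  (ω : G → G → G → Kˣ), IsCoc ω → ∀ (E : Type) [Ring E] [Algebra K E]
  (b : Module.Basis (G × G) K E), IsDouble ω E b →
  (∀ g : G, orderOf g * orderOf (z ω g) ∣ Fintype.card G) → (∑ g, b (g, g)) ^ Fintype.card G = 1

end Pool.Agent.W2helper5.KA2
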